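import Pool.Agent.Y89.TX.Stm
import Pool.Agent.Y657.TV.IDEAL

/-!
Job TX-IDEALE (helper814): subspaces of skew operators normalised by the spin Lie algebra, even
rank.  Uses the files of helper998 and helper657 for odd rank.
-/

set_option autoImplicit false

open Matrix Finset

namespace Pool.Agent.Y814.TX

open Pool.Agent.Y89.TS Pool.Agent.Y998.TS Pool.Agent.Y657.TV

section

variable {N : Type} [Fintype N] [DecidableEq N] {n : ℕ} {Γ : Fin n → Matrix N N ℂ}
  {K : Submodule ℂ (Matrix N N ℂ)}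

theorem sg_key {a b : Fin n} (hab : a ≠ b) (u : Finset (Fin n)) :
    sg a b u = if (a ∈ u ↔ b ∈ u) then -1 else 1 := by
  unfold sg
  have h3 : (({a, b} : Finset (Fin n)) ∩ u).card = (if a ∈ u then 1 else 0) +
      (if b ∈ u then 1 else 0) := by
    by_cases h4 : a ∈ u <;> by_cases h5 : b ∈ u
    · have : ({a, b} : Finset (Fin n)) ∩ u = {a, b} := by
        rw [Finset.inter_eq_left]
        intro x hx
        rw [Finset.mem_insert, Finset.mem_singleton] at hx
        rcases hx with rfl | rfl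
        · exact h4
        · exact h5
      rw [this, Finset.card_pair hab, if_pos h4, if_pos h5]
    · have : ({a, b} : Finset (Fin n)) ∩ u = {a} := by
        ext x
        simp only [Finset.mem_inter, Finset.mem_insert, Finset.mem_singleton]
        constructor
        · rintro ⟨rfl | rfl, h6⟩
          · rfl
          · exact absurd h6 h5
        · rintro rfl
          exact ⟨Or.inl rfl, h4⟩
      rw [this, Finset.card_singleton, if_pos h4, if_neg h5]
    · have : ({a, b} : Finset (Fin n)) ∩ u = {b} := by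
        ext x
        simp only [Finset.mem_inter, Finset.mem_insert, Finset.mem_singleton]
        constructor
        · rintro ⟨rfl | rfl, h6⟩
          · exact absurd h6 h4
          · rfl
        · rintro rfl
          exact ⟨Or.inr rfl, h5⟩
      rw [this, Finset.card_singleton, if_neg h4, if_pos h5]
    · have : ({a, b} : Finset (Fin n)) ∩ u = ∅ := by
        ext x
        simp only [Finset.mem_inter, Finset.mem_insert, Finset.mem_singleton,
          Finset.notMem_empty, iff_false]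
        rintro ⟨rfl | rfl, h6⟩
        · exact h4 h6
        · exact h5 h6
      rw [this, Finset.card_empty, if_neg h4, if_neg h5]
  rw [h3]
  by_cases h4 : a ∈ u <;> by_cases h5 : b ∈ u <;> simp [h4, h5]

theorem sg_compl {a b : Fin n} (hab : a ≠ b) (u : Finset (Fin n)) : sg a b uᶜ = sg a b u := by
  rw [sg_key hab, sg_key hab]
  by_cases h4 : a ∈ u <;> by_cases h5 : b ∈ u <;> simp [h4, h5]

theorem sep2 {s t : Finset (Fin n)} (hst : s ≠ t) (hst' : t ≠ sᶜ) :
    ∃ a b : Fin n, a ≠ b ∧ sg a b s ≠ sg a b t := by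
  have h1 : (symmDiff s t).Nonempty := by
    rw [Finset.nonempty_iff_ne_empty]
    intro h2
    exact hst (symmDiff_eq_bot.1 h2)
  obtain ⟨a, ha⟩ := h1
  have h2 : ∃ b, b ∉ symmDiff s t := by
    by_contra h3
    push Not at h3
    apply hst'
    ext x
    have h4 := h3 x
    rw [Finset.mem_symmDiff] at h4
    rw [Finset.mem_compl]
    constructor
    · intro h5 h6
      rcases h4 with h4 | h4
      · exact h4.2 h5
      · exact h4.2 h6
    · intro h5
      rcases h4 with h4 | h4
      · exact absurd h4.1 h5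
      · exact h4.1
  obtain ⟨b, hb⟩ := h2
  have hab : a ≠ b := by
    rintro rfl
    exact hb ha
  refine ⟨a, b, hab, ?_⟩
  rw [sg_key hab s, sg_key hab t]
  rw [Finset.mem_symmDiff] at ha hb
  push Not at hb
  have h9 : (-1 : ℂ) ≠ 1 := by norm_num
  have h9' : (1 : ℂ) ≠ -1 := by norm_num
  by_cases h3 : a ∈ s <;> by_cases h4 : b ∈ s <;> by_cases h5 : a ∈ t <;> by_cases h6 : b ∈ t <;>
    simp_all

theorem suppK2 (h : Mon Γ) (hn0 : 1 ≤ n)
    (had : ∀ i j, i ≠ j → ∀ a ∈ K, Γ i * Γ j * a - a * (Γ i * Γ j) ∈ K) :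
    ∀ (k : ℕ) (c : Finset (Fin n) → ℂ),
      (Finset.univ.filter fun s => c s ≠ 0).card ≤ k → ∑ s, c s • mono Γ s ∈ K →
      ∀ s, c s ≠ 0 → c s • mono Γ s + c sᶜ • mono Γ sᶜ ∈ K := by
  intro k
  induction k with
  | zero =>
    intro c hk _ s hs
    have h1 : s ∈ Finset.univ.filter fun s => c s ≠ 0 := by simp [hs]
    have h2 := Finset.card_pos.2 ⟨s, h1⟩
    omega
  | succ k ih =>
    intro c hk hX s hs
    have hssc : s ≠ sᶜ := by
      intro h1
      have h2 : (⟨0, by omega⟩ : Fin n) ∈ s ↔ (⟨0, by omega⟩ : Fin n) ∈ sᶜ := by rw [← h1]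
      rw [Finset.mem_compl] at h2
      tauto
    by_cases h1 : ∃ t, t ≠ s ∧ t ≠ sᶜ ∧ c t ≠ 0
    · obtain ⟨t, hts, hts', ht⟩ := h1
      obtain ⟨a, b, hab, h2⟩ := sep2 (fun h' => hts h'.symm) hts'
      have hsg : ∀ u, sg a b u = -1 ∨ sg a b u = 1 := by
        intro u
        unfold sg
        split_ifs
        · exact Or.inl rfl
        · exact Or.inr rfl
      have h3 := conjK h had hab hX
      have h4 : (Γ a * Γ b) * (∑ s, c s • mono Γ s) * (Γ a * Γ b) =
          ∑ u, (sg a b u * c u) • mono Γ u := by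
        rw [Finset.mul_sum, Finset.sum_mul]
        refine Finset.sum_congr rfl fun u _ => ?_
        rw [mul_smul_comm, smul_mul_assoc, h.conj_mono hab u, smul_smul, mul_comm]
      rw [h4] at h3
      have h5 : ∑ u, ((1 + sg a b s * sg a b u) * c u) • mono Γ u ∈ K := by
        have h6 : ∑ u, ((1 + sg a b s * sg a b u) * c u) • mono Γ u =
            (∑ u, c u • mono Γ u) + sg a b s • ∑ u, (sg a b u * c u) • mono Γ u := by
          rw [Finset.smul_sum, ← Finset.sum_add_distrib]
          refine Finset.sum_congr rfl fun u _ => ?_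
          rw [smul_smul, ← add_smul]
          congr 1
          ring
        rw [h6]
        exact K.add_mem hX (K.smul_mem _ h3)
      have h6 : sg a b s * sg a b s = 1 := by
        rcases hsg s with h7 | h7 <;> rw [h7] <;> norm_num
      have h7 := ih (fun u => (1 + sg a b s * sg a b u) * c u) ?_ h5 s ?_
      · simp only [sg_compl hab, h6] at h7
        have h8 := K.smul_mem (1 / 2 : ℂ) h7
        rw [smul_add, smul_smul, smul_smul] at h8
        have e1 : (1 / 2 : ℂ) * ((1 + 1) * c s) = c s := by ring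
        have e2 : (1 / 2 : ℂ) * ((1 + 1) * c sᶜ) = c sᶜ := by ring
        rw [e1, e2] at h8
        exact h8
      · have h6 : (Finset.univ.filter fun u => (1 + sg a b s * sg a b u) * c u ≠ 0) ⊆
            (Finset.univ.filter fun u => c u ≠ 0).erase t := by
          intro u hu
          rw [Finset.mem_filter] at hu
          rw [Finset.mem_erase, Finset.mem_filter]
          refine ⟨?_, Finset.mem_univ _, fun h7 => hu.2 (by rw [h7, mul_zero])⟩
          rintro rfl
          apply hu.2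
          rcases hsg s with h7 | h7 <;> rcases hsg u with h8 | h8
          · exact absurd (h7.trans h8.symm) h2
          · rw [h7, h8]; norm_num
          · rw [h7, h8]; norm_num
          · exact absurd (h7.trans h8.symm) h2
        have h7 : t ∈ Finset.univ.filter fun u => c u ≠ 0 := by simp [ht]
        have h8 := Finset.card_le_card h6
        rw [Finset.card_erase_of_mem h7] at h8
        omega
      · simp only [h6]
        exact mul_ne_zero (by norm_num) hs
    · push Not at h1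
      have h2 : ∑ u, c u • mono Γ u = c s • mono Γ s + c sᶜ • mono Γ sᶜ := by
        rw [← Finset.sum_pair (f := fun u => c u • mono Γ u) hssc]
        symm
        apply Finset.sum_subset (Finset.subset_univ _)
        intro u _ hu
        rw [Finset.mem_insert, Finset.mem_singleton] at hu
        push Not at hu
        rw [h1 u hu.1 hu.2, zero_smul]
      rwa [h2] at hX

/-- squares of the even monomials -/
theorem mono_sq_even (h : Mon Γ) : ∀ (k : ℕ) (s : Finset (Fin n)), s.card = 2 * k →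
    mono Γ s * mono Γ s = ((-1 : ℂ) ^ k) • (1 : Matrix N N ℂ) := by
  intro k
  induction k with
  | zero =>
    intro s hs
    have : s = ∅ := Finset.card_eq_zero.1 (by omega)
    subst this
    rw [h.e, pow_zero, one_smul, one_mul]
  | succ k ih =>
    intro s hs
    obtain ⟨a, ha⟩ : s.Nonempty := Finset.card_pos.1 (by omega)
    obtain ⟨b, hb⟩ : (s.erase a).Nonempty := Finset.card_pos.1 (by
      rw [Finset.card_erase_of_mem ha]; omega)
    have hba : b ≠ a := (Finset.mem_erase.1 hb).1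
    have hbs : b ∈ s := (Finset.mem_erase.1 hb).2
    obtain ⟨s', hs'⟩ : ∃ s', s' = (s.erase a).erase b := ⟨_, rfl⟩
    have hc : s'.card = 2 * k := by
      rw [hs', Finset.card_erase_of_mem hb, Finset.card_erase_of_mem ha]; omega
    have hd : symmDiff s' {a, b} = s := by
      ext x
      simp only [hs', Finset.mem_symmDiff, Finset.mem_erase, Finset.mem_insert,
        Finset.mem_singleton]
      constructor
      · rintro (⟨⟨-, -, h1⟩, -⟩ | ⟨h1 | h1, -⟩)
        · exact h1
        · rw [h1]; exact ha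
        · rw [h1]; exact hbs
      · intro hx
        by_cases h1 : x = a
        · right
          exact ⟨Or.inl h1, fun h2 => h2.2.1 h1⟩
        · by_cases h2 : x = b
          · right
            exact ⟨Or.inr h2, fun h3 => h3.1 h2⟩
          · left
            exact ⟨⟨h2, h1, hx⟩, fun h3 => h3.elim h1 h2⟩
    have hab : a ≠ b := fun h1 => hba h1.symm
    have hpair : mono Γ {a, b} * mono Γ {a, b} = -1 := by
      have h0 := h.pair_sq hab
      rcases h.pair hab with h1 | h1
      · rwa [h1] at h0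
      · rw [h1, neg_mul_neg] at h0
        exact h0
    have hcomm : mono Γ s' * mono Γ {a, b} = mono Γ {a, b} * mono Γ s' := by
      apply h.cm
      · rw [hc]; exact even_two_mul k
      · have : s' ∩ {a, b} = ∅ := by
          ext x
          simp only [hs', Finset.mem_inter, Finset.mem_erase, Finset.mem_insert,
            Finset.mem_singleton, Finset.notMem_empty, iff_false]
          rintro ⟨⟨h1, h2, -⟩, h3⟩
          exact h3.elim h2 h1
        rw [this]; simp
    have hmain : (mono Γ s' * mono Γ {a, b}) * (mono Γ s' * mono Γ {a, b}) =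
        ((-1 : ℂ) ^ (k + 1)) • (1 : Matrix N N ℂ) := by
      calc (mono Γ s' * mono Γ {a, b}) * (mono Γ s' * mono Γ {a, b})
          = (mono Γ s' * mono Γ {a, b}) * (mono Γ {a, b} * mono Γ s') := by rw [hcomm]
        _ = mono Γ s' * (mono Γ {a, b} * mono Γ {a, b}) * mono Γ s' := by noncomm_ring
        _ = -(mono Γ s' * mono Γ s') := by rw [hpair]; noncomm_ring
        _ = _ := by rw [ih s' hc, pow_succ, mul_neg_one, neg_smul]
    rcases h.mul s' {a, b} with h1 | h1
    · rwa [h1, hd] at hmain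
    · rwa [h1, hd, neg_mul_neg] at hmain

/-- products across the cut, with a central factor -/
theorem cutz (h : Mon Γ) (hbr : ∀ a ∈ K, ∀ b ∈ K, a * b - b * a ∈ K)
    (had : ∀ i j, i ≠ j → ∀ a ∈ K, Γ i * Γ j * a - a * (Γ i * Γ j) ∈ K)
    {s : Finset (Fin n)} {z : Matrix N N ℂ} (hz : z * mono Γ s = mono Γ s * z)
    (hzp : ∀ i j, i ≠ j → z * (Γ i * Γ j) = Γ i * Γ j * z)
    (hs : z * mono Γ s ∈ K) {a b : Fin n} (ha : a ∈ s) (hb : b ∉ s) :
    z * z * (Γ a * Γ b) ∈ K := by
  have hab : a ≠ b := fun h' => hb (h' ▸ ha)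
  have hcap : ({a, b} : Finset (Fin n)) ∩ s = {a} := by
    ext x
    simp only [Finset.mem_inter, Finset.mem_insert, Finset.mem_singleton]
    constructor
    · rintro ⟨rfl | rfl, h6⟩
      · rfl
      · exact absurd h6 hb
    · rintro rfl
      exact ⟨Or.inl rfl, ha⟩
  have hac : (Γ a * Γ b) * mono Γ s = -(mono Γ s * (Γ a * Γ b)) := by
    have h1 := h.ac (s := {a, b}) (t := s) (by rw [Finset.card_pair hab]; exact even_two)
      (by rw [hcap]; simp)
    rcases h.pair hab with h2 | h2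
    · rw [h2]; exact h1
    · rw [h2]
      simp only [neg_mul, mul_neg, neg_neg]
      rw [h1, neg_neg]
  have hzG := hzp a b hab
  have h1 := had a b hab _ hs
  obtain ⟨G, hG⟩ : ∃ G, G = Γ a * Γ b := ⟨_, rfl⟩
  obtain ⟨m, hm⟩ : ∃ m, m = mono Γ s := ⟨_, rfl⟩
  rw [← hG, ← hm] at h1 hac
  rw [← hm] at hs hz
  rw [← hG] at hzG
  rw [← hG]
  have hGm : m * G = -(G * m) := by rw [hac, neg_neg]
  have h2 : z * (G * m) ∈ K := by
    have h3 : G * (z * m) - z * m * G = (2 : ℂ) • (z * (G * m)) := by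
      have e1 : G * (z * m) = z * (G * m) := by rw [← mul_assoc, ← hzG, mul_assoc]
      have e2 : z * m * G = -(z * (G * m)) := by rw [mul_assoc, hGm, mul_neg]
      rw [e1, e2, two_smul]
      abel
    rw [h3] at h1
    have h4 := K.smul_mem (2 : ℂ)⁻¹ h1
    rwa [smul_smul, inv_mul_cancel₀ (by norm_num), one_smul] at h4
  have h3 := hbr _ hs _ h2
  have h4 : z * m * (z * (G * m)) - z * (G * m) * (z * m) =
      (-2 : ℂ) • (z * z * (G * (m * m))) := by
    have e1 : z * m * (z * (G * m)) = -(z * z * (G * (m * m))) := by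
      calc z * m * (z * (G * m)) = z * (m * z) * (G * m) := by noncomm_ring
        _ = z * (z * m) * (G * m) := by rw [hz]
        _ = z * z * (m * G) * m := by noncomm_ring
        _ = z * z * (-(G * m)) * m := by rw [hGm]
        _ = -(z * z * (G * (m * m))) := by noncomm_ring
    have e2 : z * (G * m) * (z * m) = z * z * (G * (m * m)) := by
      calc z * (G * m) * (z * m) = z * G * (m * z) * m := by noncomm_ring
        _ = z * G * (z * m) * m := by rw [hz]
        _ = z * (G * z) * m * m := by noncomm_ring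
        _ = z * (z * G) * m * m := by rw [hzG]
        _ = z * z * (G * (m * m)) := by noncomm_ring
    rw [e1, e2, neg_smul, two_smul]
    abel
  rw [h4] at h3
  have h5 := K.smul_mem (-2 : ℂ)⁻¹ h3
  rw [smul_smul, inv_mul_cancel₀ (by norm_num), one_smul] at h5
  rcases mono_sq h s with h6 | h6
  · rw [← hm] at h6
    rwa [h6, mul_one] at h5
  · rw [← hm] at h6
    rw [h6, mul_neg, mul_one, mul_neg] at h5
    exact (Submodule.neg_mem_iff K).1 h5

/-- the bracket of two products with a common index -/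
theorem br3 (hsq : ∀ i, Γ i * Γ i = 1) (hanti : ∀ i j, i ≠ j → Γ i * Γ j = -(Γ j * Γ i))
    {i j c : Fin n} (hij : i ≠ j) (hic : i ≠ c) (hjc : j ≠ c) :
    Γ c * Γ j * (Γ i * Γ c) = -(Γ i * Γ j) ∧ Γ i * Γ c * (Γ c * Γ j) = Γ i * Γ j := by
  constructor
  · calc Γ c * Γ j * (Γ i * Γ c) = Γ c * (Γ j * Γ i) * Γ c := by noncomm_ring
      _ = Γ c * (-(Γ i * Γ j)) * Γ c := by rw [hanti j i hij.symm]
      _ = -((Γ c * Γ i) * (Γ j * Γ c)) := by noncomm_ring
      _ = -((-(Γ i * Γ c)) * (-(Γ c * Γ j))) := by rw [hanti c i hic.symm, hanti j c hjc]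
      _ = -(Γ i * (Γ c * Γ c) * Γ j) := by noncomm_ring
      _ = -(Γ i * Γ j) := by rw [hsq, mul_one]
  · calc Γ i * Γ c * (Γ c * Γ j) = Γ i * (Γ c * Γ c) * Γ j := by noncomm_ring
      _ = Γ i * Γ j := by rw [hsq, mul_one]

/-- products through a third index, with a central factor -/
theorem thirdz (hsq : ∀ i, Γ i * Γ i = 1) (hanti : ∀ i j, i ≠ j → Γ i * Γ j = -(Γ j * Γ i))
    (had : ∀ i j, i ≠ j → ∀ a ∈ K, Γ i * Γ j * a - a * (Γ i * Γ j) ∈ K)
    {u : Matrix N N ℂ} (hu : ∀ i j, i ≠ j → u * (Γ i * Γ j) = Γ i * Γ j * u)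
    {i j c : Fin n} (hij : i ≠ j) (hic : i ≠ c) (hjc : j ≠ c) (h : u * (Γ i * Γ c) ∈ K) :
    u * (Γ i * Γ j) ∈ K := by
  have h1 := had c j hjc.symm _ h
  obtain ⟨e1, e2⟩ := br3 hsq hanti hij hic hjc
  have h2 : Γ c * Γ j * (u * (Γ i * Γ c)) - u * (Γ i * Γ c) * (Γ c * Γ j) =
      (-2 : ℂ) • (u * (Γ i * Γ j)) := by
    have e3 : Γ c * Γ j * (u * (Γ i * Γ c)) = -(u * (Γ i * Γ j)) := by
      calc Γ c * Γ j * (u * (Γ i * Γ c)) = (Γ c * Γ j * u) * (Γ i * Γ c) := by
            rw [← mul_assoc (Γ c * Γ j)]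
        _ = u * (Γ c * Γ j * (Γ i * Γ c)) := by rw [← hu c j hjc.symm, mul_assoc]
        _ = -(u * (Γ i * Γ j)) := by rw [e1, mul_neg]
    have e4 : u * (Γ i * Γ c) * (Γ c * Γ j) = u * (Γ i * Γ j) := by rw [mul_assoc, e2]
    rw [e3, e4, neg_smul, two_smul]
    abel
  rw [h2] at h1
  have h5 := K.smul_mem (-2 : ℂ)⁻¹ h1
  rwa [smul_smul, inv_mul_cancel₀ (by norm_num), one_smul] at h5

/-- the factors form an algebra -/
theorem mulz (hsq : ∀ i, Γ i * Γ i = 1) (hanti : ∀ i j, i ≠ j → Γ i * Γ j = -(Γ j * Γ i))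
    (hn : 3 ≤ n) (hbr : ∀ a ∈ K, ∀ b ∈ K, a * b - b * a ∈ K)
    {u : Matrix N N ℂ} (hu : ∀ i j, i ≠ j → u * (Γ i * Γ j) = Γ i * Γ j * u)
    (h : ∀ i j, i ≠ j → u * (Γ i * Γ j) ∈ K) {i j : Fin n} (hij : i ≠ j) :
    u * u * (Γ i * Γ j) ∈ K := by
  obtain ⟨c, hc⟩ : ∃ c : Fin n, c ∉ ({i, j} : Finset (Fin n)) := by
    by_contra h3
    push Not at h3
    have h4 : ({i, j} : Finset (Fin n)) = Finset.univ := Finset.eq_univ_iff_forall.2 h3
    have h5 := Finset.card_pair hij
    rw [h4, Finset.card_univ, Fintype.card_fin] at h5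
    omega
  rw [Finset.mem_insert, Finset.mem_singleton] at hc
  push Not at hc
  have hic : i ≠ c := hc.1.symm
  have hjc : j ≠ c := hc.2.symm
  have h1 := hbr _ (h c j hjc.symm) _ (h i c hic)
  obtain ⟨e1, e2⟩ := br3 hsq hanti hij hic hjc
  have h2 : u * (Γ c * Γ j) * (u * (Γ i * Γ c)) - u * (Γ i * Γ c) * (u * (Γ c * Γ j)) =
      (-2 : ℂ) • (u * u * (Γ i * Γ j)) := by
    have e3 : u * (Γ c * Γ j) * (u * (Γ i * Γ c)) = -(u * u * (Γ i * Γ j)) := by
      calc u * (Γ c * Γ j) * (u * (Γ i * Γ c)) = u * (Γ c * Γ j * u) * (Γ i * Γ c) := by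
            noncomm_ring
        _ = u * (u * (Γ c * Γ j)) * (Γ i * Γ c) := by rw [hu c j hjc.symm]
        _ = u * u * (Γ c * Γ j * (Γ i * Γ c)) := by noncomm_ring
        _ = -(u * u * (Γ i * Γ j)) := by rw [e1, mul_neg]
    have e4 : u * (Γ i * Γ c) * (u * (Γ c * Γ j)) = u * u * (Γ i * Γ j) := by
      calc u * (Γ i * Γ c) * (u * (Γ c * Γ j)) = u * (Γ i * Γ c * u) * (Γ c * Γ j) := by
            noncomm_ring
        _ = u * (u * (Γ i * Γ c)) * (Γ c * Γ j) := by rw [hu i c hic]
        _ = u * u * (Γ i * Γ c * (Γ c * Γ j)) := by noncomm_ring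
        _ = u * u * (Γ i * Γ j) := by rw [e2]
    rw [e3, e4, neg_smul, two_smul]
    abel
  rw [h2] at h1
  have h5 := K.smul_mem (-2 : ℂ)⁻¹ h1
  rwa [smul_smul, inv_mul_cancel₀ (by norm_num), one_smul] at h5

/-- the square of a binomial in the volume element -/
theorem zz_sq {W : Matrix N N ℂ} (hW : W * W = 1) (x y : ℂ) :
    (x • (1 : Matrix N N ℂ) + y • W) * (x • 1 + y • W) =
      (x * x + y * y) • 1 + (2 * x * y) • W := by
  simp only [add_mul, mul_add, smul_mul_smul_comm, one_mul, mul_one, hW]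
  module

end

theorem t_ideale : Pool.Agent.Y89.TX.S_ideale := by
  intro N _ _ n Γ hΓ hn hn4 τ hτm hτp K hbr had hskew hcomm
  obtain ⟨m1, m2, m3, m4⟩ := Pool.Agent.Y259.TS.t_mono N n Γ hΓ
  have hM : Mon Γ := ⟨hΓ.sq, m1, m2, m3, m4⟩
  by_cases hsc : ∀ a ∈ K, ∃ c : ℂ, a = c • mono Γ univ
  · exact Or.inl hsc
  right
  push Not at hsc
  obtain ⟨a, haK, ha⟩ := hsc
  have hNe : Nonempty N := by
    by_contra h1
    rw [not_nonempty_iff] at h1
    exact ha 0 (Subsingleton.elim _ _)
  obtain ⟨c, hc, rfl⟩ := exists_coef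
    (Pool.Agent.Y165.TS.t_comm Pool.Agent.Y259.TS.t_mono N n Γ hΓ a (hcomm a haK))
  have h42 := skew_coef hM (by omega) hτm hτp hc (hskew _ haK)
  obtain ⟨s, hsu, hcs⟩ : ∃ s : Finset (Fin n), s ≠ univ ∧ c s ≠ 0 := by
    by_contra hno
    push Not at hno
    apply ha (c univ)
    rw [Finset.sum_eq_single univ]
    · intro s _ hs
      rw [hno s hs, zero_smul]
    · intro h
      exact absurd (Finset.mem_univ _) h
  have hs2 := h42 s hcs
  have hse : Even s.card := by rw [Nat.even_iff]; omega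
  obtain ⟨e, he⟩ : s.Nonempty := Finset.card_pos.1 (by omega)
  obtain ⟨f, hf⟩ : ∃ f, f ∉ s := by
    by_contra h3
    push Not at h3
    exact hsu (Finset.eq_univ_iff_forall.2 h3)
  have hK1 := suppK2 hM (by omega) had _ c le_rfl haK s hcs
  obtain ⟨W, hWdef⟩ : ∃ W, W = mono Γ univ := ⟨_, rfl⟩
  have hWp : ∀ i j, i ≠ j → W * (Γ i * Γ j) = Γ i * Γ j * W := by
    intro i j hij
    have h1 : mono Γ {i, j} * W = W * mono Γ {i, j} := by
      rw [hWdef]
      apply hM.cm
      · rw [Finset.card_pair hij]; exact even_two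
      · rw [Finset.inter_univ, Finset.card_pair hij]; exact even_two
    rcases hM.pair hij with h2 | h2
    · rw [h2, h1]
    · rw [h2, mul_neg, neg_mul, h1]
  have hWs : W * mono Γ s = mono Γ s * W := by
    rw [hWdef]
    exact (hM.cm hse (by rw [Finset.inter_univ]; exact hse)).symm
  obtain ⟨y, hy, hy0⟩ : ∃ y : ℂ, c sᶜ • mono Γ sᶜ = y • (W * mono Γ s) ∧ (c sᶜ = 0 → y = 0) := by
    have h1 : symmDiff (univ : Finset (Fin n)) s = sᶜ := top_symmDiff s
    rcases hM.mul univ s with h2 | h2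
    · refine ⟨c sᶜ, ?_, fun h => h⟩
      rw [hWdef, h2, h1]
    · refine ⟨-c sᶜ, ?_, fun h => by rw [h, neg_zero]⟩
      rw [hWdef, h2, h1, smul_neg, neg_smul, neg_neg]
  obtain ⟨x, hx⟩ : ∃ x, x = c s := ⟨_, rfl⟩
  rw [hy, ← hx] at hK1
  rw [← hx] at hcs
  obtain ⟨z, hz⟩ : ∃ z : Matrix N N ℂ, z = x • 1 + y • W := ⟨_, rfl⟩
  have hzm : z * mono Γ s ∈ K := by
    rw [hz, add_mul, smul_mul_assoc, one_mul, smul_mul_assoc]
    exact hK1
  have hzc : z * mono Γ s = mono Γ s * z := by
    rw [hz, add_mul, mul_add, smul_mul_assoc, smul_mul_assoc, mul_smul_comm, mul_smul_comm,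
      one_mul, mul_one, hWs]
  have hzp : ∀ i j, i ≠ j → z * (Γ i * Γ j) = Γ i * Γ j * z := by
    intro i j hij
    rw [hz, add_mul, mul_add, smul_mul_assoc, smul_mul_assoc, mul_smul_comm, mul_smul_comm,
      one_mul, mul_one, hWp i j hij]
  have hup : ∀ i j, i ≠ j → z * z * (Γ i * Γ j) = Γ i * Γ j * (z * z) := by
    intro i j hij
    rw [mul_assoc, hzp i j hij, ← mul_assoc, hzp i j hij, mul_assoc]
  have hcut : ∀ {a b : Fin n}, a ∈ s → b ∉ s → z * z * (Γ a * Γ b) ∈ K :=
    fun ha hb => cutz hM hbr had hzc hzp hzm ha hb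
  have hcut' : ∀ {a b : Fin n}, a ∈ s → b ∉ s → z * z * (Γ b * Γ a) ∈ K := by
    intro a b ha hb
    have hab : b ≠ a := fun h' => hb (h' ▸ ha)
    rw [hΓ.anti b a hab, mul_neg]
    exact (Submodule.neg_mem_iff K).2 (hcut ha hb)
  have hall : ∀ i j, i ≠ j → z * z * (Γ i * Γ j) ∈ K := by
    intro i j hij
    by_cases hi : i ∈ s <;> by_cases hj : j ∈ s
    · exact thirdz (c := f) hΓ.sq hΓ.anti had hup hij (fun h' => hf (h' ▸ hi))
        (fun h' => hf (h' ▸ hj)) (hcut hi hf)
    · exact hcut hi hj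
    · exact hcut' hj hi
    · exact thirdz (c := e) hΓ.sq hΓ.anti had hup hij (fun h' => hi (h' ▸ he))
        (fun h' => hj (h' ▸ he)) (hcut' he hi)
  have hmod : n % 4 = 2 ∨ n % 4 = 0 := by
    rw [Nat.even_iff] at hn
    omega
  rcases hmod with h2 | h0
  · left
    have hcc : c sᶜ = 0 := by
      by_contra h3
      have h4 := h42 sᶜ h3
      have h5 := Finset.card_compl s
      rw [Fintype.card_fin] at h5
      have h6 : s.card ≤ n := by
        have := Finset.card_le_univ s
        rwa [Fintype.card_fin] at this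
      omega
    have hzz : z = x • (1 : Matrix N N ℂ) := by rw [hz, hy0 hcc, zero_smul, add_zero]
    intro i j hij
    have h3 := hall i j hij
    rw [hzz, smul_mul_smul_comm, one_mul, smul_mul_assoc, one_mul] at h3
    have h4 := K.smul_mem (x * x)⁻¹ h3
    rwa [smul_smul, inv_mul_cancel₀ (mul_ne_zero hcs hcs), one_smul] at h4
  · have hW2 : W * W = 1 := by
      have h3 := mono_sq_even hM (n / 2) (univ : Finset (Fin n)) (by
        rw [Finset.card_univ, Fintype.card_fin]; omega)
      have h4 : Even (n / 2) := by rw [Nat.even_iff]; omega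
      rw [h4.neg_one_pow, one_smul, ← hWdef] at h3
      exact h3
    have hzz : z * z = (x * x + y * y) • 1 + (2 * x * y) • W := by rw [hz]; exact zz_sq hW2 x y
    obtain ⟨X, hX⟩ : ∃ X, X = x * x + y * y := ⟨_, rfl⟩
    obtain ⟨Y, hY⟩ : ∃ Y, Y = 2 * x * y := ⟨_, rfl⟩
    rw [← hX, ← hY] at hzz
    have huu : z * z * (z * z) = (X * X + Y * Y) • 1 + (2 * X * Y) • W := by
      rw [hzz]; exact zz_sq hW2 X Y
    have hall2 : ∀ i j, i ≠ j → z * z * (z * z) * (Γ i * Γ j) ∈ K := fun i j hij =>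
      mulz hΓ.sq hΓ.anti (by omega) hbr hup hall hij
    have hA : ∀ i j, i ≠ j → X • (Γ i * Γ j) + Y • (W * (Γ i * Γ j)) ∈ K := by
      intro i j hij
      have h3 := hall i j hij
      rwa [hzz, add_mul, smul_mul_assoc, smul_mul_assoc, one_mul] at h3
    have hB : ∀ i j, i ≠ j →
        (X * X + Y * Y) • (Γ i * Γ j) + (2 * X * Y) • (W * (Γ i * Γ j)) ∈ K := by
      intro i j hij
      have h3 := hall2 i j hij
      rwa [huu, add_mul, smul_mul_assoc, smul_mul_assoc, one_mul] at h3
    by_cases hy1 : y = 0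
    · left
      intro i j hij
      have h3 := hA i j hij
      have hY0 : Y = 0 := by rw [hY, hy1, mul_zero]
      have hX0 : X = x * x := by rw [hX, hy1, mul_zero, add_zero]
      rw [hY0, zero_smul, add_zero, hX0] at h3
      have h4 := K.smul_mem (x * x)⁻¹ h3
      rwa [smul_smul, inv_mul_cancel₀ (mul_ne_zero hcs hcs), one_smul] at h4
    · right
      refine ⟨h0, ?_⟩
      rw [← hWdef]
      have hYne : Y ≠ 0 := by
        rw [hY]
        exact mul_ne_zero (mul_ne_zero two_ne_zero hcs) hy1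
      by_cases hp : X + Y = 0
      · refine ⟨-1, by norm_num, fun i j hij => ?_⟩
        have h3 := hA i j hij
        have hXY : X = -Y := by linear_combination hp
        have h4 := K.smul_mem (-Y)⁻¹ h3
        rw [hXY, smul_add, smul_smul, smul_smul, inv_mul_cancel₀ (neg_ne_zero.2 hYne), one_smul]
          at h4
        have h5 : (-Y)⁻¹ * Y = -1 := by
          field_simp
        rw [h5] at h4
        exact h4
      · refine ⟨1, by norm_num, fun i j hij => ?_⟩
        have h3 := hA i j hij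
        have h4 := hB i j hij
        have h5 := K.smul_mem (Y * (X + Y))⁻¹ (K.sub_mem h4 (K.smul_mem (X - Y) h3))
        have h6 : (Y * (X + Y))⁻¹ • ((X * X + Y * Y) • (Γ i * Γ j) +
            (2 * X * Y) • (W * (Γ i * Γ j)) - (X - Y) • (X • (Γ i * Γ j) +
              Y • (W * (Γ i * Γ j)))) = Γ i * Γ j + (1 : ℂ) • (W * (Γ i * Γ j)) := by
          have e1 : (X * X + Y * Y) • (Γ i * Γ j) +
            (2 * X * Y) • (W * (Γ i * Γ j)) - (X - Y) • (X • (Γ i * Γ j) +
              Y • (W * (Γ i * Γ j))) = (Y * (X + Y)) • (Γ i * Γ j + W * (Γ i * Γ j)) := by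
            module
          rw [e1, smul_smul, inv_mul_cancel₀ (mul_ne_zero hYne hp), one_smul, one_smul]
        rwa [h6] at h5

end Pool.Agent.Y814.TX
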